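import Pool.Agent.W477.GM.Stms

set_option maxHeartbeats 1000000

/-!
# GM-SATF: satisfaction of the formulas
-/

namespace Pool.Agent.W477.GM.W359Satf

open Pool.Agent.W477.GM
open FirstOrder FirstOrder.Language
open Pool.Agent.Helper672.Plain (LSet Mem IsPair IsOrdPair)

variable {M : Type 1} [LSet.Structure M]

/-- satisfaction -/
abbrev T (φ : Fm) (v : ℕ → M) : Prop := SatR Mem (fun _ => True) φ v

lemma t_eq (i j : ℕ) (v : ℕ → M) : T (Fm.eq i j) v ↔ v i = v j := Iff.rfl

lemma t_mem (i j : ℕ) (v : ℕ → M) : T (Fm.mem i j) v ↔ Mem (v i) (v j) := Iff.rfl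

lemma t_fls (v : ℕ → M) : T Fm.fls v ↔ False := Iff.rfl

lemma t_imp (a b : Fm) (v : ℕ → M) : T (Fm.imp a b) v ↔ (T a v → T b v) := Iff.rfl

lemma t_all (i : ℕ) (a : Fm) (v : ℕ → M) :
    T (Fm.all i a) v ↔ ∀ x, T a (Function.update v i x) :=
  ⟨fun h x => h x trivial, fun h x _ => h x⟩

lemma t_neg (a : Fm) (v : ℕ → M) : T (Fm.neg a) v ↔ ¬ T a v := by
  unfold Fm.neg
  rw [t_imp, t_fls]

lemma t_and (a b : Fm) (v : ℕ → M) : T (Fm.and a b) v ↔ T a v ∧ T b v := by
  unfold Fm.and
  simp only [t_neg, t_imp]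
  tauto

lemma t_or (a b : Fm) (v : ℕ → M) : T (Fm.or a b) v ↔ T a v ∨ T b v := by
  unfold Fm.or
  simp only [t_neg, t_imp]
  tauto

lemma t_iff (a b : Fm) (v : ℕ → M) : T (Fm.iff a b) v ↔ (T a v ↔ T b v) := by
  unfold Fm.iff
  simp only [t_and, t_imp]
  tauto

lemma t_ex (i : ℕ) (a : Fm) (v : ℕ → M) :
    T (Fm.ex i a) v ↔ ∃ x, T a (Function.update v i x) := by
  unfold Fm.ex
  simp only [t_neg, t_all]
  push Not
  rfl

lemma t_isPr (p x y m : ℕ) (hp : p ≠ m) (hx : x ≠ m) (hy : y ≠ m) (v : ℕ → M) :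
    T (Fm.isPr p x y m) v ↔ IsPair (v p) (v x) (v y) := by
  unfold Fm.isPr IsPair
  simp only [t_all, t_iff, t_or, t_mem, t_eq, Function.update_self,
    Function.update_of_ne hp, Function.update_of_ne hx, Function.update_of_ne hy]

lemma t_fIn (x y f : ℕ) (hx : x < 10) (hy : y < 10) (hf : f < 10) (v : ℕ → M) :
    T (fIn x y f) v ↔ InP (v x) (v y) (v f) := by
  have hx10 : x ≠ 10 := by omega
  have hx11 : x ≠ 11 := by omega
  have hx12 : x ≠ 12 := by omega
  have hx13 : x ≠ 13 := by omega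
  have hy10 : y ≠ 10 := by omega
  have hy11 : y ≠ 11 := by omega
  have hy12 : y ≠ 12 := by omega
  have hy13 : y ≠ 13 := by omega
  have hf10 : f ≠ 10 := by omega
  unfold fIn Fm.inP Fm.isOp InP IsOrdPair
  simp only [t_ex, t_and, t_mem]
  refine exists_congr fun q => ?_
  rw [Function.update_of_ne hf10, Function.update_self]
  refine and_congr ?_ Iff.rfl
  refine exists_congr fun s => exists_congr fun d => ?_
  rw [t_isPr 11 x x 13 (by decide) hx13 hx13, t_isPr 12 x y 13 (by decide) hx13 hy13,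
    t_isPr 10 11 12 13 (by decide) (by decide) (by decide)]
  simp only [Function.update_self, Function.update_of_ne hx12, Function.update_of_ne hx11,
    Function.update_of_ne hx10, Function.update_of_ne hy12, Function.update_of_ne hy11,
    Function.update_of_ne hy10,
    Function.update_of_ne (show (11 : ℕ) ≠ 12 by decide),
    Function.update_of_ne (show (10 : ℕ) ≠ 12 by decide),
    Function.update_of_ne (show (10 : ℕ) ≠ 11 by decide)]

theorem satf_holds : P_SATF := by
  intro M _ v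
  refine ⟨?_, ?_, ?_⟩
  · intro h
    change T valFm v at h
    unfold valFm at h
    simp only [t_ex, t_and, t_all, t_imp, t_iff, t_mem, t_fIn 4 5 3 (by decide) (by decide) (by decide),
      t_fIn 6 7 4 (by decide) (by decide) (by decide), t_fIn 6 8 3 (by decide) (by decide) (by decide),
      t_fIn 1 2 3 (by decide) (by decide) (by decide)] at h
    simp [Function.update] at h
    obtain ⟨f, h1, h2⟩ := h
    refine ⟨f, ?_, h2⟩
    intro τ x hτ
    have h3 := h1 τ x hτ
    refine ⟨?_, ?_⟩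
    · rintro σ s ⟨h4, h5⟩
      exact h3.1 σ s h4 h5
    · intro y
      rw [h3.2 y]
      constructor
      · rintro ⟨σ, ⟨t, h4⟩, h5⟩
        exact ⟨σ, t, h4, h5⟩
      · rintro ⟨σ, t, h4, h5⟩
        exact ⟨σ, ⟨t, h4⟩, h5⟩
  · intro h
    change T poFm v at h
    unfold poFm at h
    simp only [t_ex, t_and, t_all, t_imp, t_iff, t_mem, t_eq,
      t_fIn 4 4 1 (by decide) (by decide) (by decide),
      t_fIn 4 5 1 (by decide) (by decide) (by decide), t_fIn 5 6 1 (by decide) (by decide) (by decide),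
      t_fIn 4 6 1 (by decide) (by decide) (by decide),
      t_fIn 5 4 1 (by decide) (by decide) (by decide)] at h
    simp [Function.update] at h
    obtain ⟨⟨h1, h2⟩, h3, h4⟩ := h
    exact ⟨h1, h2, h3, h4⟩
  · intro V hV h
    have h' : ∀ d, d ∈ V → T filFm (Function.update v 3 d) ∧ T genFm (Function.update v 3 d) := h
    unfold filFm genFm at h'
    simp only [t_ex, t_and, t_all, t_imp, t_iff, t_mem, t_eq,
      t_fIn 4 5 1 (by decide) (by decide) (by decide), t_fIn 6 4 1 (by decide) (by decide) (by decide),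
      t_fIn 6 5 1 (by decide) (by decide) (by decide),
      t_fIn 5 4 1 (by decide) (by decide) (by decide)] at h'
    simp [Function.update] at h'
    obtain ⟨d0, hd0⟩ := hV
    obtain ⟨⟨⟨h1, h2⟩, h3, h4⟩, -⟩ := h' d0 hd0
    refine ⟨h1, h2, h3, h4, ?_⟩
    intro d hd
    exact (h' d hd).2

end Pool.Agent.W477.GM.W359Satf
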